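import Mathlib
import Pool.Agent.J4.H95.PA.Family

/-!
# Relations modulo two between the deviations of the slopes
-/

set_option linter.unusedSectionVars false
set_option linter.unusedVariables false

namespace Pool.Agent.J4.H9.PK

open NumberField Module Pool.Agent.H204R3.CM Pool.Agent.H977R3.WN Pool.Agent.W527
  Pool.Agent.H925R2 Pool.Agent.H485R3.Exact Pool.Agent.J4.H95.PA

noncomputable section

variable {I : Type*} [Fintype I] {K : I → Type*} [∀ i, Field (K i)] [∀ i, NumberField (K i)]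
  [∀ i, IsCMField (K i)] {L : Type*} [Field L] [NumberField L] [IsGalois ℚ L]

theorem relF_smul {w c : ∀ i, (K i →+* L) → ℤ} (hc : RelF w c) (h : L ≃ₐ[ℚ] L) :
    RelF w (fun i φ => c i (h • φ)) := by
  refine ⟨fun i φ => ?_, fun g => ?_⟩
  · change c i (h • cbar φ) = - c i (h • φ)
    rw [smul_cbar, hc.1]
  · have h1 := hc.2 (g * h⁻¹)
    rw [← h1]
    refine Finset.sum_congr rfl fun i _ => ?_
    refine Fintype.sum_equiv (MulAction.toPerm h) _ _ fun φ => ?_
    rw [MulAction.toPerm_apply, mul_smul, inv_smul_smul]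

theorem res_bot {E : Type*} [Field E] [NumberField E] (φ ψ : E →+* L) :
    res (⊥ : IntermediateField ℚ E) φ = res (⊥ : IntermediateField ℚ E) ψ := by
  ext ⟨z, hz⟩
  obtain ⟨q, rfl⟩ := IntermediateField.mem_bot.1 hz
  simp [res_apply]

/-- For independent embeddings of odd (or even) deviation the values of a relation on the
embeddings of one field have the same parity. -/
theorem even_sub_of_indep {κ : L ≃ₐ[ℚ] L} (hκ : ∀ i, ∀ φ : K i →+* L, κ • φ = cbar φ)
    (hemb : ∀ i, Nonempty (K i →+* L)) {w : ∀ i, (K i →+* L) → ℤ}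
    (hw : ∀ i φ, w i (cbar φ) = - w i φ) (ε : I → ℤ)
    (hind : ∀ T : ∀ i, IntermediateField ℚ (K i), (∀ i, ¬ NonReal (T i)) →
      (∃ i, T i ≠ ⊥) → IndepF (fun i => {φ : K i →+* L | ¬ (2 : ℤ) ∣ w i φ + ε i}) T)
    {c : ∀ i, (K i →+* L) → ℤ} (hc : RelF w c) (i₀ : I) (φ₀ φ₁ : K i₀ →+* L) :
    (2 : ℤ) ∣ c i₀ φ₀ - c i₀ φ₁ := by
  classical
  have hz : ∀ n : ℤ, ((n : ZMod 2) = 0) ↔ (2 : ℤ) ∣ n :=
    fun n => by exact_mod_cast ZMod.intCast_zmod_eq_zero_iff_dvd n 2
  by_contra hcon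
  let f : ∀ i, (K i →+* L) → ZMod 2 := fun i φ => ((c i φ : ℤ) : ZMod 2)
  have hfc : ∀ i φ, f i (cbar φ) = f i φ := by
    intro i φ
    change ((c i (cbar φ) : ℤ) : ZMod 2) = ((c i φ : ℤ) : ZMod 2)
    rw [hc.1]
    push_cast
    exact CharTwo.neg_eq _
  have hex : ∀ i, ∃ (T : IntermediateField ℚ (K i)) (f' : (T →+* L) → ZMod 2),
      (∀ φ, f i φ = f' (res T φ)) ∧ ¬ NonReal T ∧
      ∀ (σ : L ≃ₐ[ℚ] L) (φ : K i →+* L), (∀ g : L ≃ₐ[ℚ] L, f i (g • σ • φ) = f i (g • φ)) →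
      res T (σ • φ) = res T φ := by
    intro i
    obtain ⟨φ⟩ := hemb i
    obtain ⟨T, f', hf', hmin⟩ := Pool.Agent.W527.exists_factor φ (f i)
    refine ⟨T, f', hf', ?_, hmin⟩
    rintro ⟨x, hx, hne⟩
    apply hne
    have h1 := hmin κ φ fun g => by rw [hκ, smul_cbar, hfc]
    have h2 := RingHom.congr_fun h1 (⟨x, hx⟩ : T)
    rw [hκ] at h2
    exact φ.injective h2
  choose T f' hf' hreal hmin using hex
  obtain ⟨i, x, hx, z, hz1, hz2⟩ := hind T hreal ⟨i₀, by
    intro hbot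
    apply hcon
    rw [← hz]
    push_cast
    change f i₀ φ₀ - f i₀ φ₁ = 0
    rw [hf', hf', sub_eq_zero]
    congr 1
    rw [hbot]
    exact res_bot _ _⟩
  apply hz2
  refine mem_adjoin_of_fix (f i) (T i) (hmin i) _ x ?_ z hz1
  intro σ hσ g
  let F : (L ≃ₐ[ℚ] L) → (Σ j, (K j →+* L)) → ℤ :=
    fun g s => c s.1 (g • s.2) * w s.1 s.2 + ε s.1 * c s.1 (g • s.2) ^ 2
  let bar : (Σ j, (K j →+* L)) → (Σ j, (K j →+* L)) := fun s => ⟨s.1, cbar s.2⟩
  have hbar : ∀ s, bar (bar s) = s := by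
    rintro ⟨j, φ⟩
    simp only [bar, cbar_cbar]
  have hne : ∀ s, bar s ≠ s := by
    rintro ⟨j, φ⟩ h
    exact cbar_ne' (hκ j) φ (eq_of_heq (Sigma.mk.inj h).2)
  have hF1 : ∀ g, ∑ s, F g s = ∑ s : (Σ j, (K j →+* L)), ε s.1 * c s.1 s.2 ^ 2 := by
    intro g
    simp only [F]
    rw [Finset.sum_add_distrib]
    have h3 : ∑ s : (Σ j, (K j →+* L)), c s.1 (g • s.2) * w s.1 s.2 = 0 := by
      rw [← hc.2 g⁻¹, Fintype.sum_sigma]
      refine Finset.sum_congr rfl fun j _ => ?_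
      refine Fintype.sum_equiv (MulAction.toPerm g) _ _ fun ψ => ?_
      rw [MulAction.toPerm_apply, inv_smul_smul]
    rw [h3, zero_add, Fintype.sum_sigma, Fintype.sum_sigma]
    refine Finset.sum_congr rfl fun j _ => ?_
    refine Fintype.sum_equiv (MulAction.toPerm g) _ _ fun ψ => ?_
    rw [MulAction.toPerm_apply]
  have hF2 : ∀ g s, F g (bar s) = F g s := by
    rintro g ⟨j, φ⟩
    change c j (g • cbar φ) * w j (cbar φ) + ε j * c j (g • cbar φ) ^ 2 =
      c j (g • φ) * w j φ + ε j * c j (g • φ) ^ 2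
    rw [smul_cbar, hc.1, hw]
    ring
  have hsq : ∀ n : ℤ, (2 : ℤ) ∣ n ^ 2 - n := by
    intro n
    have h := Int.even_mul_pred_self n
    have h2 : n ^ 2 - n = n * (n - 1) := by ring
    rw [h2]
    exact h.two_dvd
  let D : (Σ j, (K j →+* L)) → ℤ := fun s => F (g * σ) s - F g s
  have hD1 : ∑ s, D s = 0 := by
    simp only [D]
    rw [Finset.sum_sub_distrib, hF1, hF1, sub_self]
  have hD2 : ∀ s, D (bar s) = D s := by
    intro s
    simp only [D]
    rw [hF2, hF2]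
  have hD3 : ∀ s, s ≠ ⟨i, x⟩ → s ≠ ⟨i, cbar x⟩ → (2 : ℤ) ∣ D s := by
    rintro ⟨j, ψ⟩ h1 h2
    by_cases h3 : (2 : ℤ) ∣ w j ψ + ε j
    · have h4 : ∀ g, (2 : ℤ) ∣ F g ⟨j, ψ⟩ := by
        intro g
        have h5 : F g ⟨j, ψ⟩ = c j (g • ψ) * (w j ψ + ε j) +
            ε j * (c j (g • ψ) ^ 2 - c j (g • ψ)) := by
          simp only [F]
          ring
        rw [h5]
        exact dvd_add (Dvd.dvd.mul_left h3 _) (Dvd.dvd.mul_left (hsq _) _)
      exact dvd_sub (h4 _) (h4 _)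
    · have h4 : res (T j) (σ • ψ) = res (T j) ψ := by
        ext t
        exact hσ (ψ t) ⟨j, ψ, h3, h1, h2, t, t.2, rfl⟩
      have h5 : f j ((g * σ) • ψ) = f j (g • ψ) := by
        rw [mul_smul, hf', hf' j (g • ψ), res_smul (T j) g (σ • ψ), h4, ← res_smul]
      have h6 : (2 : ℤ) ∣ c j ((g * σ) • ψ) - c j (g • ψ) := by
        rw [← hz]
        push_cast
        exact sub_eq_zero.2 h5
      have h7 : D ⟨j, ψ⟩ = (c j ((g * σ) • ψ) - c j (g • ψ)) *
          (w j ψ + ε j * (c j ((g * σ) • ψ) + c j (g • ψ))) := by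
        simp only [D, F]
        ring
      rw [h7]
      exact Dvd.dvd.mul_right h6 _
  let H : (Σ j, (K j →+* L)) → ℤ := fun s => if s = ⟨i, x⟩ ∨ s = ⟨i, cbar x⟩ then 0 else D s / 2
  have hxx : (⟨i, cbar x⟩ : Σ j, (K j →+* L)) ≠ ⟨i, x⟩ := hne ⟨i, x⟩
  have hH1 : ∀ s, D s = 2 * H s + ((if s = ⟨i, x⟩ then D ⟨i, x⟩ else 0) +
      if s = ⟨i, cbar x⟩ then D ⟨i, x⟩ else 0) := by
    intro s
    by_cases h1 : s = ⟨i, x⟩
    · subst h1
      simp only [H, true_or, if_true, mul_zero, zero_add, if_neg (Ne.symm hxx), add_zero]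
    · by_cases h2 : s = ⟨i, cbar x⟩
      · subst h2
        have h3 : D ⟨i, cbar x⟩ = D ⟨i, x⟩ := hD2 ⟨i, x⟩
        simp only [H, or_true, if_true, mul_zero, zero_add, if_neg h1, h3]
      · simp only [H, h1, h2, or_self, if_false, add_zero]
        exact (Int.mul_ediv_cancel' (hD3 s h1 h2)).symm
  have hH2 : ∑ s, H s = - D ⟨i, x⟩ := by
    have h1 := hD1
    rw [Finset.sum_congr rfl fun s _ => hH1 s, Finset.sum_add_distrib, Finset.sum_add_distrib,
      ← Finset.mul_sum, Finset.sum_ite_eq' Finset.univ, Finset.sum_ite_eq' Finset.univ,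
      if_pos (Finset.mem_univ _), if_pos (Finset.mem_univ _)] at h1
    linarith
  have hH3 : ((∑ s, H s : ℤ) : ZMod 2) = 0 := by
    push_cast
    refine Finset.sum_involution (fun s _ => bar s) ?_ ?_ (fun _ _ => Finset.mem_univ _)
      (fun s _ => hbar s)
    · intro s _
      have h1 : H (bar s) = H s := by
        simp only [H]
        rw [hD2]
        have h2 : (bar s = ⟨i, x⟩ ∨ bar s = ⟨i, cbar x⟩) ↔ (s = ⟨i, x⟩ ∨ s = ⟨i, cbar x⟩) := by
          constructor
          · rintro (h | h)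
            · right
              rw [← hbar s, h]
            · left
              rw [← hbar s, h]
              exact hbar ⟨i, x⟩
          · rintro (h | h)
            · right
              rw [h]
            · left
              rw [h]
              exact hbar ⟨i, x⟩
        simp only [h2]
      rw [h1]
      exact CharTwo.add_self_eq_zero _
    · intro s _ _
      exact hne s
  have hDx : (2 : ℤ) ∣ D ⟨i, x⟩ := by
    rw [← hz]
    have h1 : (((- D ⟨i, x⟩ : ℤ)) : ZMod 2) = 0 := by rw [← hH2]; exact hH3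
    push_cast at h1
    exact neg_eq_zero.1 h1
  have h7 : D ⟨i, x⟩ = (c i ((g * σ) • x) - c i (g • x)) * (w i x + ε i) +
      ε i * ((c i ((g * σ) • x) ^ 2 - c i ((g * σ) • x)) - (c i (g • x) ^ 2 - c i (g • x))) := by
    simp only [D, F]
    ring
  rw [h7] at hDx
  have h8 : (2 : ℤ) ∣ (c i ((g * σ) • x) - c i (g • x)) * (w i x + ε i) :=
    (dvd_add_left (Dvd.dvd.mul_left (dvd_sub (hsq _) (hsq _)) _)).1 hDx
  have h9 : (2 : ℤ) ∣ c i ((g * σ) • x) - c i (g • x) :=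
    (Int.prime_two.dvd_or_dvd h8).resolve_right hx
  rw [← hz] at h9
  push_cast at h9
  rw [sub_eq_zero, mul_smul] at h9
  exact h9

/-- If the parities of all relations are constant, there is no relation, or one that is fixed up to
the sign by the Galois group. -/
theorem exists_character {w : ∀ i, (K i →+* L) → ℤ}
    (h : ∀ c, RelF w c → ∀ i (φ φ' : K i →+* L), (2 : ℤ) ∣ c i φ - c i φ')
    {c : ∀ i, (K i →+* L) → ℤ} (hc : RelF w c) {i₀ : I} {φ₀ : K i₀ →+* L} (h0 : c i₀ φ₀ ≠ 0) :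
    ∃ d : ∀ i, (K i →+* L) → ℤ, RelF w d ∧ (∃ i φ, d i φ ≠ 0) ∧
      ∀ σ : L ≃ₐ[ℚ] L, (∀ i φ, d i (σ • φ) = d i φ) ∨ ∀ i φ, d i (σ • φ) = - d i φ := by
  classical
  let N : (∀ i, (K i →+* L) → ℤ) → ℕ := fun c => ∑ i, ∑ φ : K i →+* L, (c i φ).natAbs ^ 2
  have hN : ∀ c : ∀ i, (K i →+* L) → ℤ, ((N c : ℕ) : ℤ) = ∑ i, ∑ φ : K i →+* L, (c i φ) ^ 2 := by
    intro c
    simp only [N]
    push_cast
    refine Finset.sum_congr rfl fun i _ => Finset.sum_congr rfl fun φ _ => ?_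
    rw [sq_abs]
  have hN0 : ∀ c : ∀ i, (K i →+* L) → ℤ, (∃ i φ, c i φ ≠ 0) → 0 < N c := by
    rintro c ⟨i, φ, hne⟩
    refine Finset.sum_pos' (fun _ _ => Nat.zero_le _) ⟨i, Finset.mem_univ _, ?_⟩
    exact Finset.sum_pos' (fun _ _ => Nat.zero_le _) ⟨φ, Finset.mem_univ _, by
      have := Int.natAbs_pos.2 hne
      positivity⟩
  have hex : ∃ n, ∃ d : ∀ i, (K i →+* L) → ℤ, RelF w d ∧ (∃ i φ, d i φ ≠ 0) ∧ N d = n :=
    ⟨_, c, hc, ⟨i₀, φ₀, h0⟩, rfl⟩
  obtain ⟨d, hd, hdne, hdN⟩ := Nat.find_spec hex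
  have hmin : ∀ d' : ∀ i, (K i →+* L) → ℤ, RelF w d' → N d' < N d → ∀ i φ, d' i φ = 0 := by
    intro d' h1 h2
    by_contra h3
    push Not at h3
    rw [hdN] at h2
    exact Nat.find_min hex h2 ⟨d', h1, h3, rfl⟩
  refine ⟨d, hd, hdne, fun σ => ?_⟩
  choose p hp using fun i φ => h d hd i φ (σ • φ)
  -- `p i φ` is half of the difference
  let q : ∀ i, (K i →+* L) → ℤ := fun i φ => d i φ - p i φ
  have hp2 : ∀ i φ, d i (σ • φ) = d i φ - 2 * p i φ := by
    intro i φ
    have := hp i φ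
    linarith
  have hpR : RelF w p := by
    refine ⟨fun i φ => ?_, fun g => ?_⟩
    · have h1 := hp i φ
      have h2 := hp i (cbar φ)
      rw [smul_cbar, hd.1, hd.1] at h2
      omega
    · have h1 := hd.2 g
      have h2 := (relF_smul hd σ).2 g
      have h3 : ∑ i, ∑ φ : K i →+* L, d i (σ • φ) * w i (g • φ) =
          ∑ i, ∑ φ : K i →+* L, d i φ * w i (g • φ) -
            2 * ∑ i, ∑ φ : K i →+* L, p i φ * w i (g • φ) := by
        rw [Finset.mul_sum, ← Finset.sum_sub_distrib]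
        refine Finset.sum_congr rfl fun i _ => ?_
        rw [Finset.mul_sum, ← Finset.sum_sub_distrib]
        refine Finset.sum_congr rfl fun φ _ => ?_
        rw [hp2]
        ring
      rw [h2, h1] at h3
      omega
  have hqR : RelF w q := by
    refine ⟨fun i φ => ?_, fun g => ?_⟩
    · change d i (cbar φ) - p i (cbar φ) = - (d i φ - p i φ)
      rw [hd.1, hpR.1]
      ring
    · have h1 := hd.2 g
      have h2 := hpR.2 g
      have h3 : ∑ i, ∑ φ : K i →+* L, (d i φ - p i φ) * w i (g • φ) =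
          ∑ i, ∑ φ : K i →+* L, d i φ * w i (g • φ) -
            ∑ i, ∑ φ : K i →+* L, p i φ * w i (g • φ) := by
        rw [← Finset.sum_sub_distrib]
        refine Finset.sum_congr rfl fun i _ => ?_
        rw [← Finset.sum_sub_distrib]
        exact Finset.sum_congr rfl fun φ _ => by ring
      change ∑ i, ∑ φ : K i →+* L, (d i φ - p i φ) * w i (g • φ) = 0
      rw [h3, h1, h2, sub_zero]
  have hsum : N p + N q = N d := by
    have h1 : ((N d : ℕ) : ℤ) = ∑ i, ∑ φ : K i →+* L, (d i (σ • φ)) ^ 2 := by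
      rw [hN]
      refine Finset.sum_congr rfl fun i _ => ?_
      refine (Fintype.sum_equiv (MulAction.toPerm σ) _ _ fun ψ => ?_).symm
      rw [MulAction.toPerm_apply]
    have h2 : (2 : ℤ) * ((N p : ℕ) + (N q : ℕ) : ℤ) = (N d : ℕ) + (N d : ℕ) := by
      nth_rewrite 1 [h1]
      rw [hN, hN, hN, ← Finset.sum_add_distrib, Finset.mul_sum, ← Finset.sum_add_distrib]
      refine Finset.sum_congr rfl fun i _ => ?_
      rw [← Finset.sum_add_distrib, Finset.mul_sum, ← Finset.sum_add_distrib]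
      refine Finset.sum_congr rfl fun φ _ => ?_
      rw [hp2]
      simp only [q]
      ring
    omega
  by_cases hp0 : ∀ i φ, p i φ = 0
  · left
    intro i φ
    rw [hp2, hp0]
    ring
  · by_cases hq0 : ∀ i φ, q i φ = 0
    · right
      intro i φ
      have h1 := hq0 i φ
      simp only [q] at h1
      rw [hp2]
      linarith
    · exfalso
      push Not at hp0 hq0
      have h1 := hN0 p hp0
      have h2 := hN0 q hq0
      have h3 := hmin p hpR (by omega)
      obtain ⟨i, φ, hne⟩ := hp0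
      exact hne (h3 i φ)

end

end Pool.Agent.J4.H9.PK
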