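import Mathlib
import Pool.Agent.J4.H9.PK.Two

/-!
# Relations fixed up to the sign by the Galois group come from imaginary quadratic subfields
-/

set_option linter.unusedSectionVars false
set_option linter.unusedVariables false

namespace Pool.Agent.J4.H9.PK

open NumberField Module Pool.Agent.H204R3.CM Pool.Agent.H977R3.WN Pool.Agent.W527
  Pool.Agent.H925R2 Pool.Agent.H485R3.Exact Pool.Agent.J4.H95.PA

noncomputable section

variable {I : Type*} [Fintype I] {K : I → Type*} [∀ i, Field (K i)] [∀ i, NumberField (K i)]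
  [∀ i, IsCMField (K i)] {L : Type*} [Field L] [NumberField L] [IsGalois ℚ L]

theorem no_character {κ : L ≃ₐ[ℚ] L} (hκ : ∀ i, ∀ φ : K i →+* L, κ • φ = cbar φ)
    {w : ∀ i, (K i →+* L) → ℤ} (hw : ∀ i φ, w i (cbar φ) = - w i φ)
    (ha : ∀ i (T : IntermediateField ℚ (K i)), NonReal T → finrank ℚ T = 2 →
      ∀ ψ : T →+* L, tr T (w i) ψ ≠ 0)
    (hb : ∀ i j, i ≠ j → ∀ (T : IntermediateField ℚ (K i)) (T' : IntermediateField ℚ (K j)),
      NonReal T → NonReal T' → finrank ℚ T = 2 → finrank ℚ T' = 2 → IsEmpty (T ≃+* T'))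
    {d : ∀ i, (K i →+* L) → ℤ} (hd : RelF w d) (hne : ∃ i φ, d i φ ≠ 0)
    (hσ : ∀ σ : L ≃ₐ[ℚ] L, (∀ i φ, d i (σ • φ) = d i φ) ∨ ∀ i φ, d i (σ • φ) = - d i φ) :
    False := by
  classical
  have hnz : ∀ i, (∃ φ : K i →+* L, d i φ ≠ 0) → ∀ φ : K i →+* L, d i φ ≠ 0 := by
    rintro i ⟨φ, h1⟩ φ'
    obtain ⟨σ, rfl⟩ := MulAction.exists_smul_eq (L ≃ₐ[ℚ] L) φ φ'
    rcases hσ σ with h2 | h2
    · rwa [h2]
    · rw [h2]
      exact neg_ne_zero.2 h1
  have hinv : ∀ σ : L ≃ₐ[ℚ] L, (∀ i φ, d i (σ • φ) = d i φ) → ∀ (g : L ≃ₐ[ℚ] L) i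
      (φ : K i →+* L), d i (g • σ • φ) = d i (g • φ) := by
    intro σ h1 g i φ
    rcases hσ g with h2 | h2
    · rw [h2, h2, h1]
    · rw [h2, h2, h1]
  -- the quadratic fields
  have hT : ∀ i, (∃ φ : K i →+* L, d i φ ≠ 0) → ∀ φ₀ : K i →+* L,
      ∃ (T : IntermediateField ℚ (K i)) (f' : (T →+* L) → ℤ), NonReal T ∧ finrank ℚ T = 2 ∧
        (∀ φ, d i φ = f' (res T φ)) ∧ (∀ ψ : T →+* L, ψ = res T φ₀ ∨ ψ = κ • res T φ₀) ∧
        ∀ σ : L ≃ₐ[ℚ] L, res T (σ • φ₀) = res T φ₀ ↔ ∀ j φ, d j (σ • φ) = d j φ := by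
    intro i hi φ₀
    obtain ⟨T, f', hf', hmin⟩ := Pool.Agent.W527.exists_factor φ₀ (d i)
    have h0 := hnz i hi
    have hNR : NonReal T := by
      by_contra hcon
      unfold NonReal at hcon
      push Not at hcon
      have h1 : res T (cbar φ₀) = res T φ₀ := by
        ext x
        exact congrArg φ₀ (hcon x x.2)
      have h2 := hf' (cbar φ₀)
      rw [h1, ← hf', hd.1] at h2
      have := h0 φ₀
      omega
    have hiff : ∀ σ : L ≃ₐ[ℚ] L, res T (σ • φ₀) = res T φ₀ ↔ ∀ j φ, d j (σ • φ) = d j φ := by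
      intro σ
      constructor
      · intro h1
        rcases hσ σ with h2 | h2
        · exact h2
        · exfalso
          have h3 := hf' (σ • φ₀)
          rw [h1, ← hf', h2] at h3
          have := h0 φ₀
          omega
      · intro h1
        exact hmin σ φ₀ fun g => hinv σ h1 g i φ₀
    have hκd : ∀ j (φ : K j →+* L), d j (κ • φ) = - d j φ := by
      intro j φ
      rw [hκ, hd.1]
    have hall : ∀ ψ : T →+* L, ψ = res T φ₀ ∨ ψ = κ • res T φ₀ := by
      intro ψ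
      obtain ⟨φ, rfl⟩ := res_surjective φ₀ T ψ
      obtain ⟨σ, rfl⟩ := MulAction.exists_smul_eq (L ≃ₐ[ℚ] L) φ₀ φ
      rcases hσ σ with h1 | h1
      · left
        exact (hiff σ).2 h1
      · right
        have h2 : ∀ j φ, d j ((σ * κ) • φ) = d j φ := by
          intro j φ
          rw [mul_smul, h1, hκd, neg_neg]
        have h3 := hmin (σ * κ) (κ • φ₀) fun g => hinv (σ * κ) h2 g i (κ • φ₀)
        have h4 : (σ * κ) • κ • φ₀ = σ • φ₀ := by
          rw [mul_smul, smul_smul_cbar (hκ i)]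
        rw [h4] at h3
        rw [h3]
        rfl
    refine ⟨T, f', hNR, ?_, hf', hall, hiff⟩
    rw [← card_emb_sub (res T φ₀)]
    have h1 : κ • res T φ₀ ≠ res T φ₀ := sub_ne φ₀ (hκ i) hNR _
    have h2 : (Set.univ : Set (T →+* L)) = {res T φ₀, κ • res T φ₀} := by
      ext ψ
      simp only [Set.mem_univ, Set.mem_insert_iff, Set.mem_singleton_iff, true_iff]
      exact hall ψ
    rw [← Set.ncard_univ, h2, Set.ncard_pair h1.symm]
  obtain ⟨i, φ₀, h0⟩ := hne
  obtain ⟨T, f', hNR, hrk, hf', hall, hiff⟩ := hT i ⟨φ₀, h0⟩ φ₀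
  have hzero : ∀ j, j ≠ i → ∀ φ : K j →+* L, d j φ = 0 := by
    intro j hj φ
    by_contra h1
    obtain ⟨T', f'', hNR', hrk', hf'', hall', hiff'⟩ := hT j ⟨φ, h1⟩ φ
    let a : K i →ₐ[ℚ] L := RingHom.equivRatAlgHom (K i) L φ₀
    let b : K j →ₐ[ℚ] L := RingHom.equivRatAlgHom (K j) L φ
    have h2 : (T.map a).fixingSubgroup = (T'.map b).fixingSubgroup := by
      ext σ
      have h3 : σ ∈ (T.map a).fixingSubgroup ↔ res T (σ • φ₀) = res T φ₀ := by
        rw [IntermediateField.mem_fixingSubgroup_iff]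
        constructor
        · intro h
          ext x
          exact h (a x) ⟨x, x.2, rfl⟩
        · rintro h _ ⟨x, hx, rfl⟩
          exact RingHom.congr_fun h (⟨x, hx⟩ : T)
      have h4 : σ ∈ (T'.map b).fixingSubgroup ↔ res T' (σ • φ) = res T' φ := by
        rw [IntermediateField.mem_fixingSubgroup_iff]
        constructor
        · intro h
          ext x
          exact h (b x) ⟨x, x.2, rfl⟩
        · rintro h _ ⟨x, hx, rfl⟩
          exact RingHom.congr_fun h (⟨x, hx⟩ : T')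
      rw [h3, h4, hiff, hiff']
    have h5 : T.map a = T'.map b := by
      rw [← IsGalois.fixedField_fixingSubgroup (T.map a),
        ← IsGalois.fixedField_fixingSubgroup (T'.map b), h2]
    have e1 : T ≃ₐ[ℚ] T.map a := IntermediateField.equivMap T a
    have e2 : T' ≃ₐ[ℚ] T'.map b := IntermediateField.equivMap T' b
    have e3 : T.map a ≃ₐ[ℚ] T'.map b := IntermediateField.equivOfEq h5
    exact (hb i j (Ne.symm hj) T T' hNR hNR' hrk hrk').false
      ((e1.trans e3).trans e2.symm).toRingEquiv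
  have hrel := hd.2 1
  rw [Finset.sum_eq_single i (fun j _ hj => by simp [hzero j hj])
    (fun h => absurd (Finset.mem_univ _) h)] at hrel
  have h1 : ∑ φ : K i →+* L, d i φ * w i ((1 : L ≃ₐ[ℚ] L) • φ) =
      ∑ φ : K i →+* L, f' (res T φ) * w i ((1 : L ≃ₐ[ℚ] L) • φ) :=
    Finset.sum_congr rfl fun φ _ => by rw [hf']
  rw [h1, sum_res] at hrel
  have hne1 : κ • res T φ₀ ≠ res T φ₀ := sub_ne φ₀ (hκ i) hNR _
  have huniv : (Finset.univ : Finset (T →+* L)) = {res T φ₀, κ • res T φ₀} := by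
    ext ψ
    simp only [Finset.mem_univ, Finset.mem_insert, Finset.mem_singleton, true_iff]
    exact hall ψ
  rw [huniv, Finset.sum_pair hne1.symm, one_smul, one_smul, tr_odd φ₀ (hκ i) T (hw i)] at hrel
  have h2 : f' (κ • res T φ₀) = - f' (res T φ₀) := by
    rw [← res_smul, ← hf', ← hf', hκ, hd.1]
  rw [h2, ← hf'] at hrel
  have h3 : d i φ₀ * tr T (w i) (res T φ₀) = 0 := by linarith
  rcases mul_eq_zero.1 h3 with h4 | h4
  · exact h0 h4
  · exact ha i T hNR hrk _ h4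

end

end Pool.Agent.J4.H9.PK
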