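import Mathlib
import Pool.Agent.TH170.GS.Defs
import Pool.Agent.W495.FM.HomDefs
import Pool.Agent.X303.KDefs
import Pool.Agent.X303.PureDefs

/-!
# Abelian varieties over finite fields with given deviations of the slopes: definitions
-/

namespace Pool.Agent.J4.H9.PK

open NumberField Module Pool.Agent.W495.TA Pool.Agent.W495.FM Pool.Agent.X303.TBDual

/-- Each factor of the abelian variety `Y` over the field with `p ^ a` elements is supersingular or
some power of its Frobenius endomorphism, the power with exponent `s`, say, is a Weil number `x` in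
one of the fields `K i` (embedded in the CM field of the factor) with the slopes
`s (a + κ i u i φ) / 2` at the embeddings `φ` of `K i`, where the real number `κ i ≠ 0` depends only
on `Y` and `i`. -/
def OfDeviations {p : ℕ} [Fact p.Prime] {ν : PadicAlgCl p ≃+* ℂ} {I : Type} (K : I → Type)
    [∀ i, Field (K i)] (u : ∀ i, (K i →+* ℂ) → ℤ) (Y : RedAV p ν) : Prop :=
  ∃ κ : I → ℝ, (∀ i, κ i ≠ 0) ∧ ∀ k : Y.X.I,
    Pool.Agent.TH170.GS.IsSupersingular p Y.a (Y.π k) ∨
    ∃ (i : I) (θ : K i →+* (Y.X.factor k).E) (x : K i) (s : ℕ), 0 < s ∧ θ x = Y.π k ^ s ∧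
      ∀ φ : K i →+* ℂ, 2 * (- Real.logb p ‖ν.symm (φ x)‖) - s * Y.a = s * κ i * u i φ

/-- For some `i` and some `x ∈ S i` the field `x (T i)` is not contained in the compositum of the
fields `y (T j)`, where `y ∈ S j` is an embedding different from `x` and its complex conjugate. -/
def Independent {I : Type} {K : I → Type} [∀ i, Field (K i)] [∀ i, NumberField (K i)]
    (S : ∀ i, Set (K i →+* ℂ)) (T : ∀ i, IntermediateField ℚ (K i)) : Prop :=
  ∃ i, ∃ x ∈ S i, ∃ z ∈ T i, x z ∉ IntermediateField.adjoin ℚ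
    {t : ℂ | ∃ j, ∃ y ∈ S j, (⟨j, y⟩ : Σ j, (K j →+* ℂ)) ≠ ⟨i, x⟩ ∧
      (⟨j, y⟩ : Σ j, (K j →+* ℂ)) ≠ ⟨i, ComplexEmbedding.conjugate x⟩ ∧ ∃ w ∈ T j, t = y w}

/-- First criterion: for an odd prime number `r` the embeddings at which the deviation is not
divisible by `r` are independent, for all families of subfields that are `ℚ` or not totally real. -/
def OddCriterion {I : Type} {K : I → Type} [∀ i, Field (K i)] [∀ i, NumberField (K i)]
    (u : ∀ i, (K i →+* ℂ) → ℤ) : Prop :=
  ∃ r : ℕ, r.Prime ∧ r ≠ 2 ∧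
    ∀ T : ∀ i, IntermediateField ℚ (K i), (∀ i, T i = ⊥ ∨ ¬ IsTotallyReal (T i)) →
      (∃ i, ¬ IsTotallyReal (T i)) → Independent (fun i => {φ | ¬ (r : ℤ) ∣ u i φ}) T

/-- No imaginary quadratic field `ℚ (√-d)` is contained in `K i` and `K j`, `i ≠ j`. -/
def NoCommonQuadratic {I : Type} (K : I → Type) [∀ i, Field (K i)] : Prop :=
  ∀ i j, i ≠ j → ∀ d : ℕ, 0 < d → (∃ x : K i, x ^ 2 = -(d : K i)) →
    ¬ ∃ y : K j, y ^ 2 = -(d : K j)

/-- For each square root `z` of a negative integer in `K` the sum of the values of `u` at the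
embeddings with `Im φ z > 0` (the extensions of one embedding of `ℚ (z)`) is not zero. -/
def QuadraticSums {K : Type} [Field K] [NumberField K] (u : (K →+* ℂ) → ℤ) : Prop :=
  ∀ (d : ℕ) (z : K), 0 < d → z ^ 2 = -(d : K) →
    (∑ φ : K →+* ℂ, if 0 < (φ z).im then u φ else 0) ≠ 0

/-- Second criterion: the embeddings of odd deviation (or, for some of the fields, those of even
deviation) are independent, for all families of totally real subfields; and no imaginary
quadratic field is contained in two of the fields; and the sum of the deviations over the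
extensions of an embedding of an imaginary quadratic subfield is not zero. -/
def EvenCriterion {I : Type} {K : I → Type} [∀ i, Field (K i)] [∀ i, NumberField (K i)]
    (u : ∀ i, (K i →+* ℂ) → ℤ) : Prop :=
  (∃ ε : I → ℤ, ∀ T : ∀ i, IntermediateField ℚ (K i), (∀ i, IsTotallyReal (T i)) →
      (∃ i, T i ≠ ⊥) → Independent (fun i => {φ | Odd (u i φ + ε i)}) T) ∧
    NoCommonQuadratic K ∧ ∀ i, QuadraticSums (u i)

/-- One exceptional embedding `x` and its conjugate. -/
def Exceptional {K : Type} [Field K] (g : ℕ) (u : (K →+* ℂ) → ℤ) (x : K →+* ℂ) : Prop :=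
  (∃ r : ℕ, r.Prime ∧ r ≠ 2 ∧ ¬ (r : ℤ) ∣ u x ∧
      ∀ φ, φ ≠ x → φ ≠ ComplexEmbedding.conjugate x → (r : ℤ) ∣ u φ) ∨
    (Odd (u x) ∧ ∀ φ, φ ≠ x → φ ≠ ComplexEmbedding.conjugate x → Even (u φ)) ∨
    (Even g ∧ Even (u x) ∧ ∀ φ, φ ≠ x → φ ≠ ComplexEmbedding.conjugate x → Odd (u φ))

/-- The groups of motivic and of `ℓ`-adic homology of `X` are those of an abelian variety `Y` in the
class given by the deviations `u`. -/
def IsAbelianOf {p : ℕ} [Fact p.Prime] (ν : PadicAlgCl p ≃+* ℂ) {I : Type} (K : I → Type)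
    [∀ i, Field (K i)] (u : ∀ i, (K i →+* ℂ) → ℤ) {Ω V : Type} [Field Ω] [CharZero Ω]
    (T : Homology Ω V) (X : V) : Prop :=
  ∃ (Y : RedAV p ν) (C : Cycles Ω Y) (D : Motivic C) (g : ℕ), OfDeviations K u Y ∧ IsChow C ∧
    IsMotivic D ∧ IsAbelian T X D g

/-- Parshin's conjecture for the `K`-groups of the smooth projective `X` generated by the abelian
varieties in the class given by the deviations `u`. -/
def ParshinHolds {p : ℕ} [Fact p.Prime] (ν : PadicAlgCl p ≃+* ℂ) {I : Type} (K : I → Type)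
    [∀ i, Field (K i)] (u : ∀ i, (K i →+* ℂ) → ℤ) : Prop :=
  ∀ (Ω : Type) [Field Ω] [IsAlgClosed Ω] [CharZero Ω] (V : Type) (T : Homology Ω V), IsHomology T
  → ∀ X : V, Generated T (IsAbelianOf ν K u T) X → ∀ (_hpure : IsPure T X) (G : ℤ → Type)
  [∀ m, AddCommGroup (G m)] (_hG : IsKTheory T X G) (m : ℤ) (_hm : 1 ≤ m) (x : G m),
  IsOfFinAddOrder x

end Pool.Agent.J4.H9.PK
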