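import Mathlib
import Pool.Agent.TH170.GS.Rel
import Pool.Agent.TH170.GS.TB
import Pool.Agent.J4.H9.PK.Defs

/-!
# The relations between the Frobenius eigenvalues of abelian varieties with given deviations of
the slopes: a criterion for all relations to be elementary
-/

set_option linter.unusedSectionVars false
set_option linter.unusedVariables false

namespace Pool.Agent.J4.H9.PK

open NumberField Finset Module Pool.Agent.H204R3.CM Pool.Agent.H977R3.CM Pool.Agent.TH170.CM
  Pool.Agent.TH170.MF Pool.Agent.W495.TA Pool.Agent.TH117 Pool.Agent.TH170.FW Pool.Agent.TH170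

variable {I : Type} [Fintype I] {K : I → Type} [∀ i, Field (K i)]
  [∀ i, NumberField (K i)] [∀ i, IsCMField (K i)]

/-- All antisymmetric integral functions orthogonal to all conjugates of `u` vanish. -/
def NoRel (u : ∀ i, (K i →+* ℂ) → ℤ) : Prop :=
  ∀ c : ∀ i, (K i →+* ℂ) → ℤ, (∀ i φ, c i (ComplexEmbedding.conjugate φ) = - c i φ) →
    (∀ σ : ℂ ≃+* ℂ, ∑ i, ∑ φ : K i →+* ℂ, c i φ * u i ((σ : ℂ →+* ℂ).comp φ) = 0) →
      ∀ i φ, c i φ = 0

/-- Real relations. -/
theorem NoRel.real {u : ∀ i, (K i →+* ℂ) → ℤ} (hu : NoRel u)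
    (c : ∀ i, (K i →+* ℂ) → ℝ) (hc : ∀ i φ, c i (ComplexEmbedding.conjugate φ) = - c i φ)
    (hrel : ∀ σ : ℂ ≃+* ℂ, ∑ i, ∑ φ : K i →+* ℂ, c i φ * (u i ((σ : ℂ →+* ℂ).comp φ) : ℝ) = 0)
    (i : I) (φ : K i →+* ℂ) : c i φ = 0 := by
  classical
  rw [← Module.forall_dual_apply_eq_zero_iff ℚ]
  intro l
  obtain ⟨D, m, hD, hm⟩ := GS.exists_den fun z : Σ i, (K i →+* ℂ) => l (c z.1 z.2)
  have h1 : ∀ i φ, m ⟨i, φ⟩ = 0 := by
    refine hu (fun i φ => m ⟨i, φ⟩) (fun i φ => ?_) (fun σ => ?_)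
    · have h2 : ((m ⟨i, ComplexEmbedding.conjugate φ⟩ : ℤ) : ℚ) = ((- m ⟨i, φ⟩ : ℤ) : ℚ) := by
        rw [hm, Int.cast_neg, hm, hc, map_neg]
        ring
      exact_mod_cast h2
    · have h2 := congrArg (fun x => (D : ℚ) * l x) (hrel σ)
      simp only [map_sum, map_zero, mul_zero] at h2
      have h3 : ∀ (x : ℝ) (z : ℤ), l (x * (z : ℝ)) = l x * z := by
        intro x z
        rw [mul_comm, ← zsmul_eq_mul, map_zsmul, zsmul_eq_mul, mul_comm]
      simp only [h3, mul_sum] at h2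
      have h4 : (∑ i, ∑ φ : K i →+* ℂ, ((m ⟨i, φ⟩ *
          u i ((σ : ℂ →+* ℂ).comp φ) : ℤ) : ℚ)) = 0 := by
        rw [← h2]
        refine sum_congr rfl fun i _ => sum_congr rfl fun φ _ => ?_
        rw [Int.cast_mul, hm]
        ring
      exact_mod_cast h4
  have h2 := hm ⟨i, φ⟩
  rw [h1, Int.cast_zero] at h2
  exact (mul_eq_zero.1 h2.symm).resolve_left (Nat.cast_ne_zero.2 hD)

variable {p : ℕ} [Fact p.Prime] {ν : PadicAlgCl p ≃+* ℂ}

open GS in
/-- If there are no relations between the deviations, all relations between the Frobenius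
eigenvalues are elementary. -/
theorem NoRel.elementary {u : ∀ i, (K i →+* ℂ) → ℤ} (hu : NoRel u)
    (huc : ∀ i φ, u i (ComplexEmbedding.conjugate φ) = - u i φ)
    {Y : RedAV p ν} (hY : OfDeviations K u Y) : BL.HasElementaryRelations Y := by
  classical
  intro e he
  obtain ⟨κ, hκ, hY⟩ := hY
  let S : Y.X.I → Prop := fun k =>
    ∃ s : ℕ, 0 < s ∧ Y.π k ^ (2 * s) = ((p : (Y.X.factor k).E) ^ Y.a) ^ s
  have hY' : ∀ k, ¬ S k → ∃ (i : I) (θ : K i →+* (Y.X.factor k).E) (x : K i) (s : ℕ), 0 < s ∧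
      θ x = Y.π k ^ s ∧ ∀ φ : K i →+* ℂ, 2 * (- Real.logb p ‖ν.symm (φ x)‖) - s * Y.a =
        s * κ i * u i φ := fun k hk =>
    (hY k).resolve_left hk
  choose t θ x s hs hθ hsl using hY'
  let ε : ∀ i, (K i →+* ℂ) → ℝ := fun i φ => (u i φ : ℝ)
  have hεc : ∀ i φ, ε i (ComplexEmbedding.conjugate φ) = - ε i φ := by
    intro i φ
    simp only [ε]
    rw [huc]
    push_cast
    ring
  let X : Type := Σ i, (K i →+* ℂ)
  let inv : X → X := fun z => ⟨z.1, ComplexEmbedding.conjugate z.2⟩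
  have hinv : ∀ z, inv (inv z) = z := by
    rintro ⟨i, φ⟩
    simp only [inv, conj_conj]
  let F : BL.Emb Y → Option X := fun w =>
    if h : S w.1 then none else some ⟨t w.1 h, w.2.comp (θ w.1 h)⟩
  have hF1 : ∀ w, S w.1 → F w = none := fun w h => dif_pos h
  have hF2 : ∀ w (h : ¬ S w.1), F w = some ⟨t w.1 h, w.2.comp (θ w.1 h)⟩ := fun w h => dif_neg h
  have hFc : ∀ w z, F w = some z → F (conjE w) = some (inv z) := by
    intro w z hz
    by_cases h : S w.1
    · rw [hF1 w h] at hz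
      exact absurd hz (by simp)
    · rw [hF2 w h] at hz
      rw [← Option.some.inj hz, hF2 (conjE w) h]
      rfl
  -- the slopes
  have hdev0 : ∀ w, F w = none → ∀ σ, dev Y σ w = 0 := by
    intro w hw σ
    have h : S w.1 := by
      by_contra h
      rw [hF2 w h] at hw
      exact absurd hw (by simp)
    have h1 := sum_dev_of_isRel (isRel_single w h) σ
    rw [sum_eq_single w] at h1
    · rwa [Pi.single_eq_same, Nat.cast_one, one_mul] at h1
    · intro v _ hv
      rw [Pi.single_eq_of_ne hv, Nat.cast_zero, zero_mul]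
    · intro h
      exact absurd (mem_univ _) h
  have hdev : ∀ w z, F w = some z → ∀ σ : ℂ ≃+* ℂ,
      dev Y σ w = κ z.1 * ε z.1 ((σ : ℂ →+* ℂ).comp z.2) := by
    intro w z hz σ
    by_cases h : S w.1
    · rw [hF1 w h] at hz
      exact absurd hz (by simp)
    · rw [hF2 w h] at hz
      rw [← Option.some.inj hz]
      have h1 := hsl w.1 h ((σ : ℂ →+* ℂ).comp (w.2.comp (θ w.1 h)))
      have h2 : ((σ : ℂ →+* ℂ).comp (w.2.comp (θ w.1 h))) (x w.1 h) =
          σ (BL.eig Y w) ^ s w.1 h := by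
        change σ (w.2 (θ w.1 h (x w.1 h))) = _
        rw [hθ, map_pow, map_pow]
        rfl
      rw [h2, map_pow, norm_pow, Real.logb_pow] at h1
      have hs0 : (s w.1 h : ℝ) ≠ 0 := Nat.cast_ne_zero.2 (hs w.1 h).ne'
      apply mul_left_cancel₀ hs0
      have h3 : (s w.1 h : ℝ) * dev Y σ w =
          2 * (-(s w.1 h * Real.logb p ‖ν.symm (σ (BL.eig Y w))‖)) - s w.1 h * Y.a := by
        unfold dev
        ring
      rw [h3, h1, mul_assoc]
  -- the antisymmetric exponents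
  let a : ∀ i, (K i →+* ℂ) → ℝ := fun i φ =>
    ∑ w : BL.Emb Y, (e w : ℝ) * ((if F w = some ⟨i, φ⟩ then 1 else 0) -
      (if F w = some ⟨i, ComplexEmbedding.conjugate φ⟩ then 1 else 0))
  let c : ∀ i, (K i →+* ℂ) → ℝ := fun i φ => κ i * a i φ
  have hc : ∀ i φ, c i (ComplexEmbedding.conjugate φ) = - c i φ := by
    intro i φ
    simp only [c, a]
    rw [conj_conj, ← mul_neg, ← sum_neg_distrib]
    congr 1
    exact sum_congr rfl fun w _ => by ring
  have hrel' : ∀ σ : ℂ ≃+* ℂ, ∑ i, ∑ φ : K i →+* ℂ, c i φ *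
      (u i ((σ : ℂ →+* ℂ).comp φ) : ℝ) = 0 := by
    intro σ
    have h1 : ∑ i, ∑ φ : K i →+* ℂ, c i φ * (u i ((σ : ℂ →+* ℂ).comp φ) : ℝ) =
        ∑ z : X, ∑ w : BL.Emb Y, (e w : ℝ) * (((if F w = some z then 1 else 0) -
          (if F w = some (inv z) then 1 else 0)) *
            (κ z.1 * ε z.1 ((σ : ℂ →+* ℂ).comp z.2))) := by
      rw [← Finset.univ_sigma_univ, Finset.sum_sigma]
      refine sum_congr rfl fun i _ => sum_congr rfl fun φ _ => ?_
      simp only [c, a]
      rw [mul_sum, sum_mul]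
      refine sum_congr rfl fun w _ => ?_
      simp only [ε, inv]
      ring
    rw [h1, sum_comm]
    have h2 : ∀ w : BL.Emb Y, ∑ z : X, (e w : ℝ) * (((if F w = some z then 1 else 0) -
          (if F w = some (inv z) then 1 else 0)) *
            (κ z.1 * ε z.1 ((σ : ℂ →+* ℂ).comp z.2))) = 2 * ((e w : ℝ) * dev Y σ w) := by
      intro w
      rw [← mul_sum]
      rcases hw : F w with _ | z
      · rw [hdev0 w hw]
        simp
      · have h3 : ∀ z' : X, (((if some z = some z' then (1 : ℝ) else 0) -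
            (if some z = some (inv z') then 1 else 0)) *
              (κ z'.1 * ε z'.1 ((σ : ℂ →+* ℂ).comp z'.2))) =
            (if z = z' then κ z'.1 * ε z'.1 ((σ : ℂ →+* ℂ).comp z'.2) else 0) -
              (if inv z = z' then κ z'.1 * ε z'.1 ((σ : ℂ →+* ℂ).comp z'.2) else 0) := by
          intro z'
          have h4 : (z = inv z') ↔ (inv z = z') :=
            ⟨fun h => by rw [h, hinv], fun h => by rw [← h, hinv]⟩
          simp only [Option.some_inj, h4]
          split_ifs <;> ring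
        rw [sum_congr rfl fun z' _ => h3 z', sum_sub_distrib, sum_ite_eq univ z,
          sum_ite_eq univ (inv z), if_pos (mem_univ _), if_pos (mem_univ _), hdev w z hw σ]
        have h5 : ε (inv z).1 ((σ : ℂ →+* ℂ).comp (inv z).2) =
            - ε z.1 ((σ : ℂ →+* ℂ).comp z.2) := by
          change ε z.1 ((σ : ℂ →+* ℂ).comp (ComplexEmbedding.conjugate z.2)) = _
          rw [QC.comp_conj, hεc]
        have h6 : κ (inv z).1 = κ z.1 := rfl
        rw [h5, h6]
        ring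
    rw [sum_congr rfl fun w _ => h2 w, ← mul_sum, sum_dev_of_isRel he, mul_zero]
  have h0 : ∀ i φ, a i φ = 0 := fun i φ =>
    (mul_eq_zero.1 (hu.real c hc hrel' i φ)).resolve_left (hκ i)
  refine mem_of_symm _ F inv hinv ?_ ?_ ?_ ?_ (fun w => (e w : ℤ)) ?_
  · rintro ⟨i, φ⟩ h
    exact conj_ne φ (eq_of_heq (Sigma.mk.inj h).2)
  · intro w hw
    apply single_mem
    by_contra h
    have h1 := hF2 w h
    rw [hw] at h1
    exact absurd h1 (by simp)
  · intro w w' z hz hz'
    refine pair_mem w w' fun σ => ?_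
    rw [hdev w z hz, hdev w' (inv z) hz']
    have h5 : ε (inv z).1 ((σ : ℂ →+* ℂ).comp (inv z).2) =
        - ε z.1 ((σ : ℂ →+* ℂ).comp z.2) := by
      change ε z.1 ((σ : ℂ →+* ℂ).comp (ComplexEmbedding.conjugate z.2)) = _
      rw [QC.comp_conj, hεc]
    have h6 : κ (inv z).1 = κ z.1 := rfl
    rw [h5, h6]
    ring
  · intro w z hz
    exact ⟨conjE w, hFc w z hz⟩
  · rintro ⟨i, φ⟩
    have h1 := h0 i φ
    simp only [a, mul_sub, mul_ite, mul_one, mul_zero, sum_sub_distrib] at h1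
    have h2 := sub_eq_zero.1 h1
    have h3 : ((∑ w, (if F w = some ⟨i, φ⟩ then (e w : ℤ) else 0) : ℤ) : ℝ) =
        ((∑ w, (if F w = some (inv ⟨i, φ⟩) then (e w : ℤ) else 0) : ℤ) : ℝ) := by
      push_cast
      exact h2
    exact_mod_cast h3

end Pool.Agent.J4.H9.PK
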