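import Mathlib
import Pool.Agent.J4.H9.PK.Char
import Pool.Agent.J4.H9.PK.Rel
import Pool.Agent.X303.KThms

/-!
# Two criteria for the deviations of the slopes to have no relations
-/

set_option linter.unusedSectionVars false
set_option linter.unusedVariables false

namespace Pool.Agent.J4.H9.PK

open NumberField Module Pool.Agent.H204R3.CM Pool.Agent.H977R3.CM Pool.Agent.W527
  Pool.Agent.H925R2 Pool.Agent.H485R3.Exact Pool.Agent.J4.H95.PA

variable {I : Type} [Fintype I] {K : I → Type} [∀ i, Field (K i)]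
  [∀ i, NumberField (K i)] [∀ i, IsCMField (K i)]

theorem conj_eq {E : Type} [Field E] [NumberField E] [IsCMField E] (x : E →+* ℂ) :
    Pool.Agent.J4.H95.PA.conj x = ComplexEmbedding.conjugate x := by
  have h := comp_cbar (RingHom.id ℂ) x
  rw [RingHom.id_comp, RingHom.id_comp] at h
  exact h

theorem independentFamily_of {S : ∀ i, Set (K i →+* ℂ)} {T : ∀ i, IntermediateField ℚ (K i)}
    (h : Independent S T) : IndependentFamily S T := by
  obtain ⟨i, x, hx, z, hz, hn⟩ := h
  refine ⟨i, x, hx, z, hz, fun hcon => hn ?_⟩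
  refine IntermediateField.adjoin.mono ℚ _ _ ?_ hcon
  rintro t ⟨j, y, hy, h1, h2, w, hw, rfl⟩
  refine ⟨j, y, hy, h1, ?_, w, hw, rfl⟩
  rwa [← conj_eq]

/-- An imaginary quadratic subfield contains a square root of a negative integer. -/
theorem exists_sqrt {E : Type} [Field E] [NumberField E] [IsCMField E]
    (T : IntermediateField ℚ E) (hNR : NonReal T) (hrk : finrank ℚ T = 2) :
    ∃ z ∈ T, ∃ d : ℕ, 0 < d ∧ z ^ 2 = -(d : E) := by
  obtain ⟨z, hz, hne⟩ := hNR
  have h1 : ¬ LinearIndependent ℚ ![(1 : T), ⟨z, hz⟩, ⟨z, hz⟩ ^ 2] := by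
    intro h
    have h2 := h.fintype_card_le_finrank
    rw [hrk] at h2
    simp at h2
  rw [Fintype.not_linearIndependent_iff] at h1
  obtain ⟨a, ha, i, hi⟩ := h1
  rw [Fin.sum_univ_three] at ha
  have h2 : (a 0 : E) + (a 1 : E) * z + (a 2 : E) * z ^ 2 = 0 := by
    have h3 := congrArg (fun t : T => (t : E)) ha
    simp only [Matrix.cons_val_zero, Matrix.cons_val_one, Matrix.cons_val] at h3
    simpa [Algebra.smul_def] using h3
  have hreal : ∀ q : ℚ, IsCMField.complexConj E (q : E) = (q : E) := fun q => map_ratCast _ q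
  have ha2 : a 2 ≠ 0 := by
    intro h0
    rw [h0, Rat.cast_zero, zero_mul, add_zero] at h2
    by_cases h10 : a 1 = 0
    · rw [h10, Rat.cast_zero, zero_mul, add_zero, Rat.cast_eq_zero] at h2
      fin_cases i
      · exact hi h2
      · exact hi h10
      · exact hi h0
    · apply hne
      have h4 : z = (((- a 0 / a 1 : ℚ)) : E) := by
        have h5 : (a 1 : E) ≠ 0 := Rat.cast_ne_zero.2 h10
        push_cast
        field_simp
        linear_combination h2
      rw [h4]
      exact hreal _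
  set D : ℚ := a 1 ^ 2 - 4 * a 0 * a 2 with hD
  set z₁ : E := 2 * (a 2 : E) * z + (a 1 : E) with hz₁
  have hz₁T : z₁ ∈ T := by
    have h3 : ∀ q : ℚ, (q : E) ∈ T := fun q => by
      have := T.algebraMap_mem q
      simpa using this
    have h4 : (2 : E) ∈ T := by
      have := h3 2
      simpa using this
    exact T.add_mem (T.mul_mem (T.mul_mem h4 (h3 _)) hz) (h3 _)
  have hsq : z₁ ^ 2 = (D : E) := by
    rw [hz₁, hD]
    push_cast
    linear_combination (4 * (a 2 : E)) * h2
  have hne₁ : IsCMField.complexConj E z₁ ≠ z₁ := by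
    intro h3
    apply hne
    rw [hz₁, map_add, map_mul, map_mul, hreal, hreal] at h3
    have h4 : (2 : E) * (a 2 : E) ≠ 0 := mul_ne_zero two_ne_zero (Rat.cast_ne_zero.2 ha2)
    have h5 : IsCMField.complexConj E (2 : E) = 2 := by
      have := hreal 2
      simpa using this
    rw [h5] at h3
    exact mul_left_cancel₀ h4 (add_right_cancel h3)
  have hDneg : D < 0 := by
    by_contra hcon
    push Not at hcon
    apply hne₁
    obtain ⟨φ⟩ : Nonempty (E →+* ℂ) := inferInstance
    apply φ.injective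
    have h3 : φ (IsCMField.complexConj E z₁) = starRingEnd ℂ (φ z₁) :=
      IsCMField.complexEmbedding_complexConj E φ z₁
    rw [h3]
    have h4 : (φ z₁) ^ 2 = ((D : ℝ) : ℂ) := by
      rw [← map_pow, hsq]
      simp
    have h5 : (φ z₁) ^ 2 = ((Real.sqrt D : ℝ) : ℂ) ^ 2 := by
      rw [h4, ← Complex.ofReal_pow, Real.sq_sqrt (by exact_mod_cast hcon)]
    rcases sq_eq_sq_iff_eq_or_eq_neg.1 h5 with h6 | h6
    · rw [h6, Complex.conj_ofReal]
    · rw [h6, map_neg, Complex.conj_ofReal]
  refine ⟨(D.den : E) * z₁, T.mul_mem (by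
    have := T.algebraMap_mem (D.den : ℚ)
    simpa using this) hz₁T, D.den * D.num.natAbs, ?_, ?_⟩
  · refine Nat.mul_pos D.den_pos (Int.natAbs_pos.2 ?_)
    exact (Rat.num_neg.2 hDneg).ne
  · rw [mul_pow, hsq]
    have h3 : (D.den : ℚ) ^ 2 * D = -((D.den * D.num.natAbs : ℕ) : ℚ) := by
      have h4 : ((D.num.natAbs : ℕ) : ℚ) = - (D.num : ℚ) := by
        have h5 : ((D.num.natAbs : ℕ) : ℤ) = - D.num := by
          have := Rat.num_neg.2 hDneg
          omega
        have h6 := congrArg (fun n : ℤ => (n : ℚ)) h5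
        simpa using h6
      push_cast
      rw [h4]
      have h6 : (D.den : ℚ) * D = D.num := Rat.den_mul_eq_num D
      linear_combination (D.den : ℚ) * h6
    have h7 := congrArg (fun q : ℚ => (q : E)) h3
    push_cast at h7
    push_cast
    exact h7

/-- There are two embeddings of an imaginary quadratic subfield. -/
theorem two_embeddings {E : Type} [Field E] [NumberField E] [IsCMField E]
    (F : IntermediateField ℚ E) (hNR : NonReal F) (hrk : finrank ℚ F = 2) (x : E →+* ℂ)
    (θ : F →+* ℂ) : θ = x.comp (algebraMap F E) ∨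
      θ = (ComplexEmbedding.conjugate x).comp (algebraMap F E) := by
  classical
  obtain ⟨z, hz, hne⟩ := hNR
  have hpair : (ComplexEmbedding.conjugate x).comp (algebraMap F E) ≠
      x.comp (algebraMap F E) := by
    intro h1
    have h2 := RingHom.congr_fun h1 (⟨z, hz⟩ : F)
    apply hne
    apply x.injective
    have h3 : (ComplexEmbedding.conjugate x) z = x (IsCMField.complexConj E z) := by
      rw [← conj_eq]
      rfl
    rw [← h3]
    exact h2
  have hcard : Fintype.card (F →+* ℂ) = 2 := by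
    rw [Embeddings.card, hrk]
  by_contra hcon
  push Not at hcon
  have h1 : ({θ, x.comp (algebraMap F E),
      (ComplexEmbedding.conjugate x).comp (algebraMap F E)} : Finset (F →+* ℂ)).card = 3 :=
    Finset.card_eq_three.2 ⟨_, _, _, hcon.1, hcon.2, hpair.symm, rfl⟩
  have h2 := Finset.card_le_univ ({θ, x.comp (algebraMap F E),
      (ComplexEmbedding.conjugate x).comp (algebraMap F E)} : Finset (F →+* ℂ))
  omega

/-- The imaginary part of a square root of a negative number. -/
theorem im_ne_zero {E : Type} [Field E] {z : E} {d : ℕ} (hd : 0 < d) (hz : z ^ 2 = -(d : E))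
    (φ : E →+* ℂ) : (φ z).im ≠ 0 := by
  intro h0
  have h1 : (φ z) ^ 2 = -(d : ℂ) := by
    rw [← map_pow, hz, map_neg, map_natCast]
  have h2 := congrArg Complex.re h1
  rw [sq, Complex.mul_re, h0, mul_zero, sub_zero, Complex.neg_re, Complex.natCast_re] at h2
  have h3 : (0 : ℝ) < d := by exact_mod_cast hd
  nlinarith [mul_self_nonneg (φ z).re]

open Classical in
/-- The sums over the extensions of the two embeddings of an imaginary quadratic subfield. -/
theorem sum_ext_ne_zero {E : Type} [Field E] [NumberField E] [IsCMField E] {u : (E →+* ℂ) → ℤ}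
    (hu : ∀ φ, u (ComplexEmbedding.conjugate φ) = - u φ) (h : QuadraticSums u)
    (F : IntermediateField ℚ E) (hNR : NonReal F) (hrk : finrank ℚ F = 2) (ψ : F →+* ℂ) :
    (∑ φ : E →+* ℂ, if φ.comp (algebraMap F E) = ψ then u φ else 0) ≠ 0 := by
  obtain ⟨z, hz, d, hd, hsq⟩ := exists_sqrt F hNR hrk
  have hconj : ∀ x : E →+* ℂ, ((ComplexEmbedding.conjugate x) z).im = - (x z).im := by
    intro x
    rw [ComplexEmbedding.conjugate_coe_eq, Complex.conj_im]
  -- every embedding is the restriction of an embedding `x`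
  obtain ⟨x₀⟩ : Nonempty (E →+* ℂ) := inferInstance
  obtain ⟨x, rfl⟩ : ∃ x : E →+* ℂ, ψ = x.comp (algebraMap F E) := by
    rcases two_embeddings F hNR hrk x₀ ψ with h1 | h1
    · exact ⟨_, h1⟩
    · exact ⟨_, h1⟩
  have hiff : ∀ φ : E →+* ℂ, φ.comp (algebraMap F E) = x.comp (algebraMap F E) ↔
      (0 < (φ z).im ↔ 0 < (x z).im) := by
    intro φ
    constructor
    · intro h1
      have h2 : φ z = x z := RingHom.congr_fun h1 (⟨z, hz⟩ : F)
      rw [h2]
    · intro h1
      rcases two_embeddings F hNR hrk x (φ.comp (algebraMap F E)) with h2 | h2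
      · exact h2
      · exfalso
        have h3 : φ z = (ComplexEmbedding.conjugate x) z := RingHom.congr_fun h2 (⟨z, hz⟩ : F)
        rw [h3, hconj] at h1
        have h4 := im_ne_zero hd hsq x
        rcases lt_or_gt_of_ne h4 with h5 | h5
        · have h6 := h1.1 (by linarith)
          linarith
        · have h6 := h1.2 h5
          linarith
  have h0 := h d z hd hsq
  simp only [hiff]
  rcases lt_or_gt_of_ne (im_ne_zero hd hsq x) with h5 | h5
  · -- negative imaginary part
    intro h6
    apply h0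
    have h7 : ∑ φ : E →+* ℂ, (if 0 < (φ z).im then u φ else 0) =
        ∑ φ : E →+* ℂ, (if 0 < ((ComplexEmbedding.conjugate φ) z).im then
          u (ComplexEmbedding.conjugate φ) else 0) := by
      refine (Fintype.sum_equiv (Function.Involutive.toPerm ComplexEmbedding.conjugate
        (fun φ => ?_)) _ _ fun φ => ?_).symm
      · exact star_star φ
      · rfl
    rw [h7]
    have h8 : ∑ φ : E →+* ℂ, (if 0 < ((ComplexEmbedding.conjugate φ) z).im then
          u (ComplexEmbedding.conjugate φ) else 0) =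
        - ∑ φ : E →+* ℂ, (if (0 < (φ z).im ↔ 0 < (x z).im) then u φ else 0) := by
      rw [← Finset.sum_neg_distrib]
      refine Finset.sum_congr rfl fun φ _ => ?_
      rw [hconj, hu]
      have h9 := im_ne_zero hd hsq φ
      have h10 : ¬ 0 < (x z).im := by linarith
      rcases lt_or_gt_of_ne h9 with h11 | h11
      · have h12 : ¬ 0 < (φ z).im := by linarith
        rw [if_pos (by linarith), if_pos (by simp only [h12, h10])]
      · rw [if_neg (by linarith), if_neg (by simp only [h11, h10, iff_false, not_true]; trivial),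
          neg_zero]
    rw [h8, h6, neg_zero]
  · simpa only [h5, iff_true] using h0

/-- The group acts on the embeddings through a finite quotient. -/
theorem exists_level (K : I → Type) [∀ i, Field (K i)] [∀ i, NumberField (K i)]
    [∀ i, IsCMField (K i)] : ∃ (L : Type) (_ : Field L) (_ : NumberField L) (_ : IsGalois ℚ L)
      (j : L →+* ℂ) (κ : L ≃ₐ[ℚ] L), (∀ i, ∀ ψ : K i →+* ℂ, ∃ φ : K i →+* L, j.comp φ = ψ) ∧
        (∀ i, ∀ φ : K i →+* L, κ • φ = cbar φ) ∧ ∀ i, Nonempty (K i →+* L) := by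
  obtain ⟨L, h1, h2, j, hj⟩ := exists_galois K
  obtain ⟨κ, hκ⟩ := exists_gal j (starRingAut : ℂ ≃+* ℂ)
  refine ⟨L, inferInstance, h1, h2, j, κ, hj, fun i φ => ?_, fun i => ?_⟩
  · apply RingHom.ext
    intro x
    apply j.injective
    have h3 := RingHom.congr_fun (comp_cbar j φ) x
    rw [ComplexEmbedding.conjugate_coe_eq] at h3
    exact (hκ (φ x)).symm.trans h3.symm
  · obtain ⟨φ, _⟩ := hj i (Classical.arbitrary _)
    exact ⟨φ⟩

/-- From relations for complex embeddings to relations for embeddings in a Galois extension. -/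
theorem relF_of {L : Type} [Field L] [NumberField L] [IsGalois ℚ L] (j : L →+* ℂ)
    (hj : ∀ i, ∀ ψ : K i →+* ℂ, ∃ φ : K i →+* L, j.comp φ = ψ)
    {u c : ∀ i, (K i →+* ℂ) → ℤ} (hc : ∀ i φ, c i (ComplexEmbedding.conjugate φ) = - c i φ)
    (hrel : ∀ σ : ℂ ≃+* ℂ, ∑ i, ∑ φ : K i →+* ℂ, c i φ * u i ((σ : ℂ →+* ℂ).comp φ) = 0) :
    RelF (fun i (φ : K i →+* L) => u i (j.comp φ)) (fun i φ => c i (j.comp φ)) := by
  refine ⟨fun i φ => ?_, fun g => ?_⟩
  · change c i (j.comp (cbar φ)) = - c i (j.comp φ)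
    rw [comp_cbar, hc]
  · obtain ⟨σ, hσ⟩ := exists_aut j (g : L ≃+* L)
    rw [← hrel σ]
    refine Finset.sum_congr rfl fun i _ => ?_
    have hbij : Function.Bijective (fun φ : K i →+* L => j.comp φ) :=
      ⟨fun φ ψ h => comp_inj j h, fun ψ => hj i ψ⟩
    refine Fintype.sum_equiv (Equiv.ofBijective _ hbij) _ _ fun ψ => ?_
    have h3 : (σ : ℂ →+* ℂ).comp (j.comp ψ) = j.comp (g • ψ) := by
      ext y
      exact hσ (ψ y)
    rw [Equiv.ofBijective_apply, h3]

theorem noRel_of_odd {u : ∀ i, (K i →+* ℂ) → ℤ}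
    (hu : ∀ i φ, u i (ComplexEmbedding.conjugate φ) = - u i φ) (h : OddCriterion u) :
    NoRel u := by
  classical
  obtain ⟨r, hr, hr2, hind⟩ := h
  intro c hc hrel i φ
  obtain ⟨L, _, _, _, j, κ, hj, hκ, hemb⟩ := exists_level K
  have hR := relF_of j hj hc hrel
  obtain ⟨φ', rfl⟩ := hj i φ
  have hodd : ∀ i, ∀ φ : K i →+* L, u i (j.comp (cbar φ)) = - u i (j.comp φ) := by
    intro i φ
    rw [comp_cbar, hu]
  refine zero_of_dvdF hr (fun c hc i φ => dvd_of_indepF hκ r hr hr2 hemb hodd ?_ hc i φ) hR i φ'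
  intro T hT1 hT2
  obtain ⟨i, hi⟩ := hT2
  exact indepF_of j hj (independentFamily_of (hind T
    (fun i => (hT1 i).imp_right fun h => (nonReal_iff _).1 h) ⟨i, (nonReal_iff _).1 hi⟩))

theorem noRel_of_even {u : ∀ i, (K i →+* ℂ) → ℤ}
    (hu : ∀ i φ, u i (ComplexEmbedding.conjugate φ) = - u i φ) (h : EvenCriterion u) :
    NoRel u := by
  classical
  obtain ⟨⟨ε, hind⟩, hquad, hnorm⟩ := h
  intro c hc hrel i φ
  obtain ⟨L, _, _, _, j, κ, hj, hκ, hemb⟩ := exists_level K
  have hR := relF_of j hj hc hrel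
  obtain ⟨φ', rfl⟩ := hj i φ
  have hodd : ∀ i, ∀ φ : K i →+* L, u i (j.comp (cbar φ)) = - u i (j.comp φ) := by
    intro i φ
    rw [comp_cbar, hu]
  by_contra h0
  have hpar : ∀ c, RelF (fun i (φ : K i →+* L) => u i (j.comp φ)) c →
      ∀ i (φ φ' : K i →+* L), (2 : ℤ) ∣ c i φ - c i φ' := by
    intro c hc i φ φ'
    refine even_sub_of_indep hκ hemb hodd ε (fun T hT1 hT2 => ?_) hc i φ φ'
    have h1 := indepF_of j hj (independentFamily_of (hind T
      (fun i => not_not.1 fun h => hT1 i ((nonReal_iff _).2 h)) hT2))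
    have h2 : (fun i => {φ : K i →+* L | ¬ (2 : ℤ) ∣ u i (j.comp φ) + ε i}) =
        fun i => {φ : K i →+* L | j.comp φ ∈ {φ : K i →+* ℂ | Odd (u i φ + ε i)}} := by
      funext i
      ext φ
      simp only [Set.mem_ofPred_eq]
      rw [← Int.not_even_iff_odd, even_iff_two_dvd]
    rw [h2]
    exact h1
  obtain ⟨d, hd, hne, hσ⟩ := exists_character hpar hR h0
  refine no_character hκ hodd ?_ ?_ hd hne hσ
  · intro i T hT hrk ψ
    have h1 := sum_ext_ne_zero (hu i) (hnorm i) T hT hrk (j.comp ψ)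
    intro h2
    apply h1
    refine Eq.trans ?_ h2
    unfold tr
    have hbij : Function.Bijective (fun φ : K i →+* L => j.comp φ) :=
      ⟨fun φ ψ h => comp_inj j h, fun ψ => hj i ψ⟩
    refine (Fintype.sum_equiv (Equiv.ofBijective _ hbij) _ _ fun φ => ?_).symm
    rw [Equiv.ofBijective_apply]
    have h3 : res T φ = ψ ↔ (j.comp φ).comp (algebraMap T (K i)) = j.comp ψ := by
      constructor
      · rintro rfl
        rfl
      · intro h
        ext x
        exact j.injective (RingHom.congr_fun h x)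
    simp only [h3]
  · intro i i' hii T T' hT hT' hrk hrk'
    refine ⟨fun e => ?_⟩
    obtain ⟨z, hz, d, hd, hsq⟩ := exists_sqrt T hT hrk
    refine hquad i i' hii d hd ⟨z, hsq⟩ ⟨(e ⟨z, hz⟩ : T'), ?_⟩
    have h1 : (⟨z, hz⟩ : T) ^ 2 = -(d : T) := by
      apply Subtype.ext
      push_cast
      exact hsq
    have h2 : (e ⟨z, hz⟩) ^ 2 = -(d : T') := by
      rw [← map_pow, h1, map_neg, map_natCast]
    have h3 := congrArg (fun t : T' => (t : K i')) h2
    push_cast at h3
    exact h3

end Pool.Agent.J4.H9.PK
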