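import Mathlib
import Pool.Agent.J4.H9.PK.Crit
import Pool.Agent.TH170.GS.TB

/-!
# The criteria for one field and one exceptional pair of embeddings
-/

set_option linter.unusedSectionVars false
set_option linter.unusedVariables false

namespace Pool.Agent.J4.H9.PK

open NumberField Module Pool.Agent.H204R3.CM Pool.Agent.H977R3.CM Pool.Agent.W527
  Pool.Agent.H925R2 Pool.Agent.H485R3.Exact Pool.Agent.J4.H95.PA

variable {K : Type} [Field K] [NumberField K] [IsCMField K]

/-- If only `x` and its conjugate are in `S`, the compositum is the field of rational numbers. -/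
theorem independent_of_pair (x : K →+* ℂ) (S : Set (K →+* ℂ)) (hx : x ∈ S)
    (hS : ∀ y ∈ S, y = x ∨ y = ComplexEmbedding.conjugate x) (T : IntermediateField ℚ K)
    (hT : T ≠ ⊥) : Independent (I := Unit) (K := fun _ => K) (fun _ => S) (fun _ => T) := by
  obtain ⟨z, hz, hne⟩ : ∃ z ∈ T, z ∉ (⊥ : IntermediateField ℚ K) := by
    by_contra h
    push Not at h
    exact hT (le_bot_iff.1 h)
  refine ⟨(), x, hx, z, hz, fun h => hne ?_⟩
  have h1 : {t : ℂ | ∃ j : Unit, ∃ y ∈ S, (⟨j, y⟩ : Σ _ : Unit, (K →+* ℂ)) ≠ ⟨(), x⟩ ∧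
      (⟨j, y⟩ : Σ _ : Unit, (K →+* ℂ)) ≠ ⟨(), ComplexEmbedding.conjugate x⟩ ∧
        ∃ w ∈ T, t = y w} = ∅ := by
    ext t
    simp only [Set.mem_ofPred_eq, Set.mem_empty_iff_false, iff_false]
    rintro ⟨j, y, hy, h2, h3, _⟩
    rcases hS y hy with h4 | h4
    · exact h2 (by rw [h4])
    · exact h3 (by rw [h4])
  rw [h1, IntermediateField.adjoin_empty, IntermediateField.mem_bot] at h
  obtain ⟨q, hq⟩ := h
  rw [IntermediateField.mem_bot]
  refine ⟨q, ?_⟩
  apply x.injective
  rw [← hq]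
  simp

theorem ne_bot_of_not_real {T : IntermediateField ℚ K} (hT : ¬ IsTotallyReal T) : T ≠ ⊥ := by
  rintro rfl
  obtain ⟨z, hz, hne⟩ := (nonReal_iff _).2 hT
  apply hne
  obtain ⟨q, rfl⟩ := IntermediateField.mem_bot.1 hz
  simp

/-- All deviations but the ones of one pair are divisible by an odd prime number. -/
theorem oddCriterion_of_pair {u : (K →+* ℂ) → ℤ}
    (hu : ∀ φ, u (ComplexEmbedding.conjugate φ) = - u φ) (x : K →+* ℂ) (r : ℕ) (hr : r.Prime)
    (hr2 : r ≠ 2) (hx : ¬ (r : ℤ) ∣ u x)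
    (h : ∀ φ, φ ≠ x → φ ≠ ComplexEmbedding.conjugate x → (r : ℤ) ∣ u φ) :
    OddCriterion (I := Unit) (K := fun _ => K) (fun _ => u) := by
  refine ⟨r, hr, hr2, fun T hT1 hT2 => ?_⟩
  obtain ⟨_, hT2⟩ := hT2
  refine independent_of_pair x _ hx (fun y hy => ?_) (T ()) (ne_bot_of_not_real hT2)
  by_contra hcon
  push Not at hcon
  exact hy (h y hcon.1 hcon.2)

/-- All deviations but the ones of one pair are even, or all but the ones of one pair are odd. -/
theorem evenCriterion_of_pair {u : (K →+* ℂ) → ℤ} (x : K →+* ℂ) (ε : ℤ) (hx : Odd (u x + ε))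
    (h : ∀ φ, φ ≠ x → φ ≠ ComplexEmbedding.conjugate x → Even (u φ + ε))
    (hnorm : QuadraticSums u) :
    EvenCriterion (I := Unit) (K := fun _ => K) (fun _ => u) := by
  refine ⟨⟨fun _ => ε, fun T hT1 hT2 => ?_⟩, fun i j hij => absurd rfl hij, fun _ => hnorm⟩
  obtain ⟨_, hT2⟩ := hT2
  refine independent_of_pair x _ hx (fun y hy => ?_) (T ()) hT2
  by_contra hcon
  push Not at hcon
  exact (Int.not_even_iff_odd.2 hy) (h y hcon.1 hcon.2)

/-- The number of the embeddings with positive imaginary part at a square root of a negative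
number. -/
theorem card_pos {z : K} {d : ℕ} (hd : 0 < d) (hz : z ^ 2 = -(d : K)) (g : ℕ)
    (hg : finrank ℚ K = 2 * g) :
    Nat.card {φ : K →+* ℂ // 0 < (φ z).im} = g := by
  classical
  have hconj : ∀ x : K →+* ℂ, ((ComplexEmbedding.conjugate x) z).im = - (x z).im := by
    intro x
    rw [ComplexEmbedding.conjugate_coe_eq, Complex.conj_im]
  have h1 : Nat.card {φ : K →+* ℂ // 0 < (φ z).im} = Nat.card {φ : K →+* ℂ // ¬ 0 < (φ z).im} := by
    refine Nat.card_congr ((Function.Involutive.toPerm ComplexEmbedding.conjugate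
      (fun φ => star_star φ)).subtypeEquiv fun φ => ?_)
    change 0 < (φ z).im ↔ ¬ 0 < ((ComplexEmbedding.conjugate φ) z).im
    rw [hconj]
    have := im_ne_zero hd hz φ
    constructor
    · intro h
      linarith
    · intro h
      rcases lt_or_gt_of_ne this with h2 | h2
      · exact absurd (by linarith) h
      · exact h2
  have h2 : Nat.card {φ : K →+* ℂ // 0 < (φ z).im} + Nat.card {φ : K →+* ℂ // ¬ 0 < (φ z).im} =
      2 * g := by
    rw [← Nat.card_sum, Nat.card_congr (Equiv.sumCompl fun φ : K →+* ℂ => 0 < (φ z).im),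
      Nat.card_eq_fintype_card, Embeddings.card, hg]
  omega

/-- If one pair of embeddings is exceptional, the sums over the extensions of an embedding of an
imaginary quadratic field are odd in the following case. -/
theorem sum_ne_zero_of_pair {u : (K →+* ℂ) → ℤ}
    (hu : ∀ φ, u (ComplexEmbedding.conjugate φ) = - u φ) (x : K →+* ℂ) (ε : ℤ)
    (hx : Odd (u x + ε))
    (h : ∀ φ, φ ≠ x → φ ≠ ComplexEmbedding.conjugate x → Even (u φ + ε)) (g : ℕ)
    (hg : finrank ℚ K = 2 * g) (hεg : Even (ε * g)) : QuadraticSums u := by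
  classical
  intro d z hd hz
  have hconj : ∀ x : K →+* ℂ, ((ComplexEmbedding.conjugate x) z).im = - (x z).im := by
    intro x
    rw [ComplexEmbedding.conjugate_coe_eq, Complex.conj_im]
  have hxc : Odd (u (ComplexEmbedding.conjugate x) + ε) := by
    rw [hu]
    rw [Int.odd_add] at hx ⊢
    rw [odd_neg]
    exact hx
  obtain ⟨y, hy1, hy2, hy3⟩ : ∃ y : K →+* ℂ, 0 < (y z).im ∧ Odd (u y + ε) ∧
      ∀ φ : K →+* ℂ, 0 < (φ z).im → φ ≠ y → Even (u φ + ε) := by
    rcases lt_or_gt_of_ne (im_ne_zero hd hz x) with h1 | h1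
    · refine ⟨ComplexEmbedding.conjugate x, by rw [hconj]; linarith, hxc,
        fun φ h2 h3 => h φ ?_ h3⟩
      rintro rfl
      linarith
    · refine ⟨x, h1, hx, fun φ h2 h3 => h φ h3 ?_⟩
      rintro rfl
      rw [hconj] at h2
      linarith
  have hsum : (∑ φ : K →+* ℂ, if 0 < (φ z).im then (u φ + ε) else 0) =
      (∑ φ : K →+* ℂ, if 0 < (φ z).im then u φ else 0) + ε * g := by
    have h1 : ∀ φ : K →+* ℂ, (if 0 < (φ z).im then (u φ + ε) else 0) =
        (if 0 < (φ z).im then u φ else 0) + (if 0 < (φ z).im then ε else 0) := by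
      intro φ
      split_ifs <;> simp
    rw [Finset.sum_congr rfl fun φ _ => h1 φ, Finset.sum_add_distrib]
    congr 1
    rw [← Finset.sum_filter, Finset.sum_const, nsmul_eq_mul, mul_comm, ← card_pos hd hz g hg,
      Nat.card_eq_fintype_card, Fintype.card_subtype]
  have hodd : Odd (∑ φ : K →+* ℂ, if 0 < (φ z).im then (u φ + ε) else 0) := by
    rw [← Finset.add_sum_erase _ _ (Finset.mem_univ y), if_pos hy1]
    refine hy2.add_even ?_
    refine Finset.even_sum _ fun φ hφ => ?_
    split_ifs with h1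
    · exact hy3 φ h1 (Finset.ne_of_mem_erase hφ)
    · exact Even.zero
  intro h0
  rw [hsum, h0, zero_add] at hodd
  exact (Int.not_even_iff_odd.2 hodd) hεg

/-- One of the criteria is satisfied. -/
theorem Exceptional.criterion {u : (K →+* ℂ) → ℤ}
    (hu : ∀ φ, u (ComplexEmbedding.conjugate φ) = - u φ) {x : K →+* ℂ} {g : ℕ}
    (hg : finrank ℚ K = 2 * g) (h : Exceptional g u x) :
    OddCriterion (I := Unit) (K := fun _ => K) (fun _ => u) ∨
      EvenCriterion (I := Unit) (K := fun _ => K) (fun _ => u) := by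
  rcases h with ⟨r, hr, hr2, hx, h⟩ | ⟨hx, h⟩ | ⟨hg2, hx, h⟩
  · exact Or.inl (oddCriterion_of_pair hu x r hr hr2 hx h)
  · right
    have hx' : Odd (u x + 0) := by rwa [add_zero]
    have h' : ∀ φ, φ ≠ x → φ ≠ ComplexEmbedding.conjugate x → Even (u φ + 0) := by
      intro φ h1 h2
      rw [add_zero]
      exact h φ h1 h2
    exact evenCriterion_of_pair x 0 hx' h'
      (sum_ne_zero_of_pair hu x 0 hx' h' g hg (by simp))
  · right
    have hx' : Odd (u x + 1) := hx.add_one
    have h' : ∀ φ, φ ≠ x → φ ≠ ComplexEmbedding.conjugate x → Even (u φ + 1) := by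
      intro φ h1 h2
      exact (h φ h1 h2).add_one
    exact evenCriterion_of_pair x 1 hx' h'
      (sum_ne_zero_of_pair hu x 1 hx' h' g hg (by
        rw [one_mul]
        exact_mod_cast hg2))

open Pool.Agent.W495.TA Pool.Agent.W495.FM Pool.Agent.X303.TBDual in
theorem parshin_of_noRel {p : ℕ} [Fact p.Prime] (ν : PadicAlgCl p ≃+* ℂ) {I : Type} [Fintype I]
    (K : I → Type) [∀ i, Field (K i)] [∀ i, NumberField (K i)] [∀ i, IsCMField (K i)]
    (u : ∀ i, (K i →+* ℂ) → ℤ) (hu : ∀ i φ, u i (ComplexEmbedding.conjugate φ) = - u i φ)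
    (h : NoRel u) : ParshinHolds ν K u := by
  intro Ω _ _ _ V T hT X hX hpure G _ hG m hm x
  refine parshin_K hT (tb_generated hT (fun X hX => ?_) hX) hpure hG (by omega) x
  obtain ⟨Y, C, D, g, h1, hC, hD, hX⟩ := hX
  exact tb_abelian hT hC (Pool.Agent.TH117.GN.tateHolds_elem (h.elementary hu h1)
    (fun k => Or.inr ⟨k, RingHom.id _, 1, 1, one_pos, one_pos, rfl, rfl⟩) hC) hD hX

end Pool.Agent.J4.H9.PK
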