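import Mathlib
import Pool.Agent.J4.H9.PK.One

/-!
# Parshin's conjecture on K-theory for the smooth projective varieties generated by abelian
varieties whose deviations of the slopes are independent modulo a prime number

The model of abelian varieties over finite fields and of the schemes generated by them is that of the
starting file `AlmostAllSlopeTypes`: an abelian variety over the field with `p ^ a` elements is a
`RedAV` (by Honda and Tate, up to isogeny over an algebraic closure): a finite product of CM types
with Weil numbers that satisfy the formula of Shimura and Taniyama. We fix an isomorphism `ν` of the
algebraic closure of `ℚ_p` with `ℂ`; it defines a `p`-adic valuation `v` of `ℂ` with `v (p) = 1`.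

Let `K i` (`i ∈ I`, `I` finite) be CM fields; nothing is assumed about their Galois groups, their
degrees, or their relations with each other. Let `u i` be functions with integral values on the
complex embeddings of `K i` with `u i (conj φ) = - u i φ`. Let `𝒞` be the class (`OfDeviations`) of the
abelian varieties `Y`, over any finite field of characteristic `p` (with `p ^ a` elements), each of
whose factors is supersingular or has a Frobenius endomorphism some power `x` of which (with
exponent `s`) is a Weil number in some `K i` whose slopes have the *deviations*
`2 v (φ x) - s a = s κ i u i φ`, with real numbers `κ i ≠ 0` that depend only on `Y` and `i`.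

For data `Homology Ω V` (motivic and `ℓ`-adic homology of the schemes of finite type over
a finite field, with Frobenius and regulator), let `𝒢` be the smallest class (`Generated`) of schemes
that contains those with the homology groups of abelian varieties in `𝒞` (`IsAbelianOf`), is closed
under direct summands of finite sums of twists of motives, and contains all of a closed subscheme `Z`
of `X`, `X` and `X ∖ Z` if it contains two of them.

`ParshinHolds`: for all smooth projective `X` in `𝒢` (`IsPure`, by the theorem of Deligne) the groups
`K_m(X)` (`IsKTheory`: groups that embed, up to torsion, into the sum of the groups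
`CH_j(X, m) ⊗ ℚ`) are torsion groups for all `m ≥ 1`.

Theorem, first part. `ParshinHolds` if one of two criteria is satisfied.

* `OddCriterion`: for some odd prime number `r` and `S i = {φ | r ∤ u i φ}`, for all families of
  subfields `T i` of `K i` each of which is `ℚ` or a CM field (not totally real), not all of them
  `ℚ`, some `x ∈ S i` maps `T i` outside the compositum of the fields `y (T j)`, where `y ∈ S j` is
  different from `x` and `conj x`.
* `EvenCriterion` (`NoCommonQuadratic`, `QuadraticSums`): (1) for some `ε i ∈ ℤ` and `S i = {φ | u i φ + ε i odd}` the same is true for all
  families of totally real subfields `T i` of `K i`, not all of them `ℚ` (so for each `i` one may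
  choose the embeddings of odd deviation or those of even deviation); (2) no imaginary quadratic
  field is contained (up to isomorphism) in `K i` and in `K j`, `i ≠ j`; (3) for each imaginary
  quadratic subfield `F` of some `K i` and each embedding `ψ` of `F` the sum of the deviations `u i φ`
  at the extensions `φ` of `ψ` is not zero (the norm of the Weil number to `F` is not
  supersingular).

Second part (`Exceptional`): one field `K` of degree `2 g` and one exceptional embedding `x`.
`ParshinHolds` in the following cases: `r ∣ u φ` for all `φ ≠ x, conj x`, but `r ∤ u x`, for an odd prime number `r`;
`u φ` is even for all `φ ≠ x, conj x`, but `u x` is odd; `g` is even, and `u φ` is odd for all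
`φ ≠ x, conj x`, but `u x` is even.

The proof. As in the starting files it has to be shown that all relations between the Frobenius
eigenvalues are generated by those of the complex conjugate pairs, that is, that an antisymmetric
integral function `c` on the embeddings that is orthogonal to all Galois conjugates of `u` vanishes.
For an odd `r` this is the argument of `MP_021685_ag.IndependentSlopes` (helper95): the smallest
subfields `T i` through which `c` modulo `r` factors violate the criterion, so `c` is divisible by
`r`. For `r = 2` the fields `T i` are totally real, and the sum of
`c (g φ) u φ + ε c (g φ) ^ 2` over all embeddings, which does not depend on `g`, can be considered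
modulo four; it follows that the parity of `c` is constant on the embeddings of each field. Then
`(c + σ c) / 2` and `(c - σ c) / 2` are relations for all `σ`, so a shortest relation satisfies
`σ c = ± c` for all `σ`: it comes from an imaginary quadratic field `F` and contradicts (2) or (3).
-/

namespace Pool.Agent.Results.MP_27fd67_ag.IndependentDeviations

open NumberField Module Pool.Agent.W495.TA Pool.Agent.W495.FM Pool.Agent.X303.TBDual
  Pool.Agent.J4.H9.PK

theorem result (p : ℕ) [Fact p.Prime] (ν : PadicAlgCl p ≃+* ℂ) :
    (∀ {I : Type} [Fintype I] (K : I → Type) [∀ i, Field (K i)] [∀ i, NumberField (K i)]
      [∀ i, IsCMField (K i)] (u : ∀ i, (K i →+* ℂ) → ℤ),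
      (∀ i φ, u i (ComplexEmbedding.conjugate φ) = - u i φ) →
      (OddCriterion u ∨ EvenCriterion u) → ParshinHolds ν K u) ∧
    (∀ (K : Type) [Field K] [NumberField K] [IsCMField K] (g : ℕ), finrank ℚ K = 2 * g →
      ∀ (u : (K →+* ℂ) → ℤ), (∀ φ, u (ComplexEmbedding.conjugate φ) = - u φ) →
      ∀ x : K →+* ℂ, Exceptional g u x → ParshinHolds ν (fun _ : Unit => K) (fun _ => u)) := by
  have key : ∀ {I : Type} [Fintype I] (K : I → Type) [∀ i, Field (K i)] [∀ i, NumberField (K i)]
      [∀ i, IsCMField (K i)] (u : ∀ i, (K i →+* ℂ) → ℤ),
      (∀ i φ, u i (ComplexEmbedding.conjugate φ) = - u i φ) →
      (OddCriterion u ∨ EvenCriterion u) → ParshinHolds ν K u := by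
    intro I _ K _ _ _ u hu h
    refine parshin_of_noRel ν K u hu ?_
    rcases h with h | h
    · exact noRel_of_odd hu h
    · exact noRel_of_even hu h
  exact ⟨key, fun K _ _ _ g hg u hu x h => key _ _ (fun _ => hu) (h.criterion hu hg)⟩

end Pool.Agent.Results.MP_27fd67_ag.IndependentDeviations
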